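import Pool.Agent.H64.BTL.Stmts

/-!
Row DTB of the board btl (MP_c9ffa7_al), by helper54.
-/

set_option autoImplicit false

namespace Pool.BTL

attribute [local instance] Matrix.linftyOpNormedAddCommGroup Matrix.linftyOpNormedSpace
  Matrix.linftyOpNormedRing Matrix.linftyOpNormedAlgebra

namespace H54

lemma entry_le {k : Type} [NontriviallyNormedField k] {n : ℕ} (M : Matrix (Fin n) (Fin n) k)
    (i j : Fin n) : ‖M i j‖ ≤ ‖M‖ := by
  have h1 : ‖M.mulVec (Pi.single j 1)‖ ≤ ‖M‖ * ‖(Pi.single j (1 : k) : Fin n → k)‖ :=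
    Matrix.linfty_opNorm_mulVec M _
  rw [Pi.norm_single, norm_one, mul_one] at h1
  refine le_trans ?_ h1
  have h2 := norm_le_pi_norm (M.mulVec (Pi.single j (1 : k))) i
  have h3 : M.mulVec (Pi.single j (1 : k)) i = M i j := by
    rw [Matrix.mulVec_single_one]
    rfl
  rwa [h3] at h2

lemma det_bound {k : Type} [NontriviallyNormedField k] {n : ℕ} (M : Matrix (Fin n) (Fin n) k) :
    ‖M.det‖ ≤ (n.factorial : ℝ) * ‖M‖ ^ n := by
  have h1 := Matrix.det_le (A := M) (abv := NormedField.toAbsoluteValue k) (x := ‖M‖)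
    (fun i j => entry_le M i j)
  rw [Fintype.card_fin, nsmul_eq_mul] at h1
  exact h1

lemma lower {k : Type} [NontriviallyNormedField k] {n : ℕ} (hn : n ≠ 0)
    (M : Matrix (Fin n) (Fin n) k) (h : M.det = 1) : 1 ≤ (n.factorial : ℝ) * ‖M‖ := by
  have h1 := det_bound M
  rw [h, norm_one] at h1
  have hf : (1 : ℝ) ≤ n.factorial := by exact_mod_cast Nat.factorial_pos n
  rcases le_total 1 ‖M‖ with h2 | h2
  · calc (1 : ℝ) = 1 * 1 := by ring
      _ ≤ n.factorial * ‖M‖ := mul_le_mul hf h2 zero_le_one (by positivity)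
  · refine h1.trans (mul_le_mul_of_nonneg_left ?_ (by positivity))
    exact pow_le_of_le_one (norm_nonneg _) h2 hn

lemma half {k : Type} [NontriviallyNormedField k] {n : ℕ} (hn : n ≠ 0)
    (M N : Matrix (Fin n) (Fin n) k) (h : N.det = 1) (C : ℝ) (hC : ‖M‖ * ‖N‖ ≤ C) :
    ‖M‖ ≤ n.factorial * C := by
  have h1 := lower hn N h
  calc ‖M‖ = ‖M‖ * 1 := (mul_one _).symm
    _ ≤ ‖M‖ * (n.factorial * ‖N‖) := mul_le_mul_of_nonneg_left h1 (norm_nonneg _)
    _ = n.factorial * (‖M‖ * ‖N‖) := by ring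
    _ ≤ n.factorial * C := mul_le_mul_of_nonneg_left hC (by positivity)

lemma pow_eig {k : Type} [NontriviallyNormedField k] {n : ℕ} (A : Matrix (Fin n) (Fin n) k)
    (c : k) (x : Fin n → k) (h : A.mulVec x = c • x) (m : ℕ) :
    (A ^ m).mulVec x = c ^ m • x := by
  induction m with
  | zero => simp
  | succ m ih =>
    rw [pow_succ, ← Matrix.mulVec_mulVec, h, Matrix.mulVec_smul, ih, smul_smul, pow_succ,
      mul_comm]

lemma pow_bdd {a C : ℝ} (h : ∀ m : ℕ, a ^ m ≤ C) : a ≤ 1 := by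
  by_contra h1
  push Not at h1
  obtain ⟨m, hm⟩ := pow_unbounded_of_one_lt C h1
  exact absurd (h m) (not_le.mpr hm)

lemma eig_le {k : Type} [NontriviallyNormedField k] {n : ℕ} (A : Matrix (Fin n) (Fin n) k)
    (C : ℝ) (hC : ∀ m : ℕ, ‖A ^ m‖ ≤ C) (c : k) (x : Fin n → k) (hx : x ≠ 0)
    (h : A.mulVec x = c • x) : ‖c‖ ≤ 1 := by
  refine pow_bdd (C := C) (fun m => ?_)
  have h1 : ‖(A ^ m).mulVec x‖ ≤ ‖A ^ m‖ * ‖x‖ := Matrix.linfty_opNorm_mulVec _ _
  rw [pow_eig A c x h m, norm_smul, norm_pow] at h1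
  have h2 : 0 < ‖x‖ := norm_pos_iff.mpr hx
  exact (le_of_mul_le_mul_right h1 h2).trans (hC m)

end H54

open H54 in
theorem DTB_thm : DTBStmt := by
  intro k _ n A B hn hAB hA ⟨C, hC⟩
  have hBA : B * A = 1 := mul_eq_one_comm.mp hAB
  have hB : B.det = 1 := by
    have h1 : A.det * B.det = 1 := by rw [← Matrix.det_mul, hAB, Matrix.det_one]
    rwa [hA, one_mul] at h1
  have hAm : ∀ m : ℕ, (A ^ m).det = 1 := fun m => by rw [Matrix.det_pow, hA, one_pow]
  have hBm : ∀ m : ℕ, (B ^ m).det = 1 := fun m => by rw [Matrix.det_pow, hB, one_pow]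
  have h1 : ∀ m : ℕ, ‖A ^ m‖ ≤ n.factorial * C := fun m => half hn _ _ (hBm m) C (hC m)
  have h2 : ∀ m : ℕ, ‖B ^ m‖ ≤ n.factorial * C := fun m =>
    half hn _ _ (hAm m) C (by rw [mul_comm]; exact hC m)
  refine ⟨⟨n.factorial * C, fun m => ⟨h1 m, h2 m⟩⟩, ?_⟩
  intro c x hx hc
  have hc0 : c ≠ 0 := by
    rintro rfl
    rw [zero_smul] at hc
    have h3 : B.mulVec (A.mulVec x) = x := by rw [Matrix.mulVec_mulVec, hBA, Matrix.one_mulVec]
    rw [hc, Matrix.mulVec_zero] at h3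
    exact hx h3.symm
  have hcB : B.mulVec x = c⁻¹ • x := by
    have h3 : B.mulVec (A.mulVec x) = x := by rw [Matrix.mulVec_mulVec, hBA, Matrix.one_mulVec]
    rw [hc, Matrix.mulVec_smul] at h3
    rw [← h3, smul_smul, inv_mul_cancel₀ hc0, one_smul, h3]
  have h3 := eig_le A _ h1 c x hx hc
  have h4 := eig_le B _ h2 c⁻¹ x hx hcB
  rw [norm_inv] at h4
  have h5 : 0 < ‖c‖ := norm_pos_iff.mpr hc0
  have h6 : 1 ≤ ‖c‖ := by
    by_contra h7
    push Not at h7
    exact absurd h4 (not_le.mpr ((one_lt_inv₀ h5).mpr h7))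
  exact le_antisymm h3 h6

end Pool.BTL
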